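import Mathlib
import Pool.Agent.Y268.D3.Defs

/-!
# Iterated means: general rules (project D3)

* `itE_append` (a), `itE_indep` (b), `itE_mul` (c), `Ind.itE`, `Ind.itE_mem` (independence is inherited),
  `itE_sum`, `itE_const_mul`, `itE_mul_const`, `itE_conj` (d), `itE_filter` (only the relevant variables
  matter), `itE_congr_on` (only the configurations which agree with `ω` outside the list matter).
-/

set_option autoImplicit false
set_option linter.all false

open scoped ComplexOrder InnerProductSpace ComplexConjugate
open Finset

noncomputable section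

namespace Pool.Agent.Y971.D3

open Y268.D3 H759R2.Kad H711R2.KG

section gen

variable {V S : Type} [DecidableEq V] {X : Type*}

/-- `f` does not depend on the variable `v` -/
def Ind (f : (V → S) → X) (v : V) : Prop := ∀ (ω : V → S) (t : S), f (Function.update ω v t) = f ω

theorem itE_nil (M : V → Mean S) (f : (V → S) → ℂ) : itE M [] f = f := rfl

theorem itE_cons (M : V → Mean S) (v : V) (l : List V) (f : (V → S) → ℂ) (ω : V → S) :
    itE M (v :: l) f ω = (M v).E (fun t => itE M l f (Function.update ω v t)) := rfl

theorem itE_single (M : V → Mean S) (v : V) (f : (V → S) → ℂ) (ω : V → S) :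
    itE M [v] f ω = (M v).E (fun t => f (Function.update ω v t)) := rfl

/-- (a) -/
theorem itE_append (M : V → Mean S) (l₁ l₂ : List V) (f : (V → S) → ℂ) :
    itE M (l₁ ++ l₂) f = itE M l₁ (itE M l₂ f) := by
  induction l₁ with
  | nil => rfl
  | cons v l₁ ih =>
    funext ω
    rw [List.cons_append, itE_cons, itE_cons, ih]

/-- (b) -/
theorem itE_indep (M : V → Mean S) (l : List V) (f : (V → S) → ℂ) (h : ∀ v ∈ l, Ind f v) :
    itE M l f = f := by
  induction l with
  | nil => rfl
  | cons v l ih =>
    funext ω
    rw [itE_cons, ih fun u hu => h u (List.mem_cons_of_mem _ hu)]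
    have h1 : (fun t => f (Function.update ω v t)) = fun _ => f ω :=
      funext fun t => h v List.mem_cons_self ω t
    rw [h1, (M v).const]

/-- independence is inherited -/
theorem Ind.itE {M : V → Mean S} {f : (V → S) → ℂ} {v : V} (h : Ind f v) (l : List V) :
    Ind (Y268.D3.itE M l f) v := by
  induction l with
  | nil => exact h
  | cons u l ih =>
    intro ω s
    rw [itE_cons, itE_cons]
    congr 1
    funext t
    by_cases hu : u = v
    · subst hu
      rw [Function.update_idem]
    · rw [Function.update_comm (Ne.symm hu)]
      exact ih _ s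

/-- the iterated mean does not depend on the averaged variables -/
theorem Ind.itE_mem {M : V → Mean S} {f : (V → S) → ℂ} {v : V} {l : List V} (h : v ∈ l) :
    Ind (Y268.D3.itE M l f) v := by
  induction l with
  | nil => exact absurd h (List.not_mem_nil)
  | cons u l ih =>
    intro ω s
    rw [itE_cons, itE_cons]
    congr 1
    funext t
    by_cases hu : u = v
    · subst hu
      rw [Function.update_idem]
    · rw [Function.update_comm (Ne.symm hu)]
      exact ih ((List.mem_cons.1 h).resolve_left (Ne.symm hu)) _ s

theorem itE_const_mul (M : V → Mean S) (l : List V) (c : ℂ) (f : (V → S) → ℂ) (ω : V → S) :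
    itE M l (fun ω => c * f ω) ω = c * itE M l f ω := itE_smul M l c f ω

theorem itE_mul_const (M : V → Mean S) (l : List V) (c : ℂ) (f : (V → S) → ℂ) (ω : V → S) :
    itE M l (fun ω => f ω * c) ω = itE M l f ω * c := by
  rw [mul_comm, ← itE_const_mul]
  congr 1
  funext ω
  ring

theorem itE_add' (M : V → Mean S) (l : List V) (f g : (V → S) → ℂ) (ω : V → S) :
    itE M l (fun ω => f ω + g ω) ω = itE M l f ω + itE M l g ω := itE_add M l f g ω

theorem itE_const (M : V → Mean S) (l : List V) (c : ℂ) (ω : V → S) : itE M l (fun _ => c) ω = c :=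
  congrFun (itE_indep M l (fun _ => c) fun _ _ _ _ => rfl) ω

theorem itE_zero (M : V → Mean S) (l : List V) (ω : V → S) : itE M l (fun _ => 0) ω = 0 :=
  itE_const M l 0 ω

theorem itE_sum (M : V → Mean S) (l : List V) {ι : Type*} (t : Finset ι) (f : ι → (V → S) → ℂ)
    (ω : V → S) : itE M l (fun ω => ∑ i ∈ t, f i ω) ω = ∑ i ∈ t, itE M l (f i) ω := by
  classical
  induction t using Finset.induction_on with
  | empty => simp only [Finset.sum_empty]; exact itE_zero M l ω
  | insert a t ha ih =>
    simp only [Finset.sum_insert ha]
    rw [itE_add', ih]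

/-- conjugates -/
theorem itE_conj (M : V → Mean S)
    (hreal : ∀ (v : V) (f : S → ℂ) (C : ℝ), (∀ s, ‖f s‖ ≤ C) →
      (M v).E (fun s => conj (f s)) = conj ((M v).E f))
    (l : List V) (f : (V → S) → ℂ) (C : ℝ) (h : ∀ ω, ‖f ω‖ ≤ C) (ω : V → S) :
    itE M l (fun ω => conj (f ω)) ω = conj (itE M l f ω) := by
  induction l generalizing ω with
  | nil => rfl
  | cons v l ih =>
    rw [itE_cons, itE_cons]
    simp only [ih]
    exact hreal v _ C fun s => itE_bd M l f C h _

/-- (c) the product rule -/
theorem itE_mul (M : V → Mean S) (l : List V) (f g : (V → S) → ℂ)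
    (h : ∀ v ∈ l, Ind f v ∨ Ind g v) (ω : V → S) :
    itE M l (fun ω => f ω * g ω) ω = itE M l f ω * itE M l g ω := by
  induction l generalizing ω with
  | nil => rfl
  | cons v l ih =>
    rw [itE_cons, itE_cons, itE_cons]
    simp only [ih fun u hu => h u (List.mem_cons_of_mem _ hu)]
    rcases h v List.mem_cons_self with h1 | h1
    · have h2 : ∀ t, itE M l f (Function.update ω v t) = itE M l f ω := fun t => h1.itE l ω t
      simp only [h2]
      rw [(M v).const_mul, (M v).const]
    · have h2 : ∀ t, itE M l g (Function.update ω v t) = itE M l g ω := fun t => h1.itE l ω t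
      simp only [h2]
      rw [(M v).mul_const, (M v).const]

/-- only the relevant variables matter -/
theorem itE_filter (M : V → Mean S) (p : V → Bool) (l : List V) (f : (V → S) → ℂ)
    (h : ∀ v ∈ l, p v = false → Ind f v) : itE M l f = itE M (l.filter p) f := by
  induction l with
  | nil => rfl
  | cons v l ih =>
    funext ω
    have ih' := ih fun u hu => h u (List.mem_cons_of_mem _ hu)
    rw [itE_cons, ih']
    by_cases hp : p v = true
    · rw [List.filter_cons_of_pos hp]
      rfl
    · rw [List.filter_cons_of_neg hp]
      have h1 := h v List.mem_cons_self (by simpa using hp)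
      have h2 : (fun t => itE M (l.filter p) f (Function.update ω v t)) =
          fun _ => itE M (l.filter p) f ω := funext fun t => h1.itE _ ω t
      rw [h2, (M v).const]

/-- only the configurations which agree with `ω` outside the list matter -/
theorem itE_congr_on (M : V → Mean S) (l : List V) (f g : (V → S) → ℂ) (ω : V → S)
    (h : ∀ ω' : V → S, (∀ v, v ∉ l → ω' v = ω v) → f ω' = g ω') : itE M l f ω = itE M l g ω := by
  induction l generalizing ω with
  | nil => exact h ω fun _ _ => rfl
  | cons v l ih =>
    rw [itE_cons, itE_cons]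
    congr 1
    funext t
    refine ih _ fun ω' hω' => h ω' fun u hu => ?_
    rw [List.mem_cons, not_or] at hu
    rw [hω' u hu.2, Function.update_of_ne hu.1]

/-- independence of the variables in a list -/
theorem ind_agree {f : (V → S) → X} (l : List V) (h : ∀ v ∈ l, Ind f v) {ω ω' : V → S}
    (hω : ∀ v, v ∉ l → ω' v = ω v) : f ω' = f ω := by
  induction l generalizing ω' with
  | nil =>
    have : ω' = ω := funext fun v => hω v List.not_mem_nil
    rw [this]
  | cons v l ih =>
    have h1 := h v List.mem_cons_self ω' (ω v)
    rw [← h1]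
    refine ih (fun u hu => h u (List.mem_cons_of_mem _ hu)) fun u hu => ?_
    by_cases huv : u = v
    · subst huv
      rw [Function.update_self]
    · rw [Function.update_of_ne huv]
      exact hω u (by rw [List.mem_cons, not_or]; exact ⟨huv, hu⟩)

end gen

end Pool.Agent.Y971.D3
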