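import Mathlib
import Pool.Agent.Y268.D3.Defs

/-!
# The values `Rv` (project D3): factorisation at a letter, vanishing
-/

set_option autoImplicit false
set_option linter.all false

open scoped ComplexOrder InnerProductSpace ComplexConjugate
open Finset

noncomputable section

namespace Pool.Agent.Y971.D3

open Y268.D3 H759R2.Kad H711R2.KG

variable {B : Type} [CStarAlgebra B] {τ : B →ₗ[ℂ] ℂ}

/-- `Rv` vanishes if the lists of letters differ -/
theorem Rv_ne (Φ : B → B → ℂ) (l l' : List (ℕ × B)) (a a' : B)
    (h : l.map Prod.fst ≠ l'.map Prod.fst) : Rv τ Φ a a' l l' = 0 := by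
  induction l generalizing l' a a' with
  | nil =>
    cases l' with
    | nil => exact absurd rfl h
    | cons y l' => rfl
  | cons y l ih =>
    cases l' with
    | nil => rfl
    | cons y' l' =>
      obtain ⟨c, x⟩ := y
      obtain ⟨c', x'⟩ := y'
      rw [Rv]
      split_ifs with hc
      · rw [ih l' x x' fun h1 => h (by simp [hc, h1]), mul_zero]
      · rfl

/-- factorisation at a letter which occurs only once -/
theorem Rv_split (Φ : B → B → ℂ) (s : ℕ) (x x' : B) (al al' be be' : List (ℕ × B)) (a a' : B)
    (h : ∀ y ∈ al, y.1 ≠ s) (h' : ∀ y ∈ al', y.1 ≠ s) :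
    Rv τ Φ a a' (al ++ (s, x) :: be) (al' ++ (s, x') :: be') =
      Rv τ (fun y y' => τ (star y * y')) a a' al al' * Rv τ Φ x x' be be' := by
  induction al generalizing al' a a' with
  | nil =>
    cases al' with
    | nil =>
      simp [Rv]
    | cons y' al' =>
      obtain ⟨c', z'⟩ := y'
      have hc : s ≠ c' := fun e => h' (c', z') List.mem_cons_self e.symm
      rw [List.nil_append, List.cons_append, Rv, if_neg hc, Rv, zero_mul]
  | cons y al ih =>
    obtain ⟨c, z⟩ := y
    cases al' with
    | nil =>
      have hc : c ≠ s := h (c, z) List.mem_cons_self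
      rw [List.nil_append, List.cons_append, Rv, if_neg hc, Rv, zero_mul]
    | cons y' al' =>
      obtain ⟨c', z'⟩ := y'
      rw [List.cons_append, List.cons_append, Rv, Rv]
      split_ifs with hc
      · rw [ih al' z z' (fun y hy => h y (List.mem_cons_of_mem _ hy))
          (fun y hy => h' y (List.mem_cons_of_mem _ hy)), mul_assoc]
      · rw [zero_mul]

/-- words of concatenations -/
theorem Wd_append (G : ℕ → unitary B) (l l' : List (ℕ × B)) : Wd G (l ++ l') = Wd G l * Wd G l' := by
  induction l with
  | nil => rw [List.nil_append, Wd, one_mul]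
  | cons y l ih =>
    obtain ⟨c, x⟩ := y
    rw [List.cons_append, Wd, Wd, ih]
    simp only [mul_assoc]

end Pool.Agent.Y971.D3
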