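import Mathlib
import Pool.Agent.Y268.D3.Defs
import Pool.Agent.Y971.D3.It

/-!
# The rules for one stage (project D3)
-/

set_option autoImplicit false
set_option linter.all false

open scoped ComplexOrder InnerProductSpace ComplexConjugate
open Finset

noncomputable section

namespace Pool.Agent.Y971.D3

open Y268.D3 H759R2.Kad H711R2.KG

/-! ## The list of the variables of a stage -/

theorem mem_stageVars {n s : ℕ} {v : Var} :
    v ∈ stageVars n s ↔ (∃ o, o ≤ n ∧ v = Var.rot o s) ∨ v = Var.core s := by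
  unfold stageVars
  rw [List.mem_append, List.mem_map, List.mem_singleton]
  constructor
  · rintro (⟨o, ho, rfl⟩ | h)
    · exact Or.inl ⟨o, by rw [List.mem_range] at ho; omega, rfl⟩
    · exact Or.inr h
  · rintro (⟨o, ho, rfl⟩ | h)
    · exact Or.inl ⟨o, by rw [List.mem_range]; omega, rfl⟩
    · exact Or.inr h

theorem range_filter_one (n o : ℕ) (ho : o ≤ n) :
    (List.range (n + 1)).filter (fun i => decide (i = o)) = [o] := by
  have h1 : ((List.range (n + 1)).filter (fun i => decide (i = o))).Perm [o] := by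
    refine (List.perm_ext_iff_of_nodup (List.Nodup.filter _ List.nodup_range) (by simp)).2 ?_
    intro a
    simp only [List.mem_filter, List.mem_range, decide_eq_true_eq, List.mem_singleton]
    omega
  exact List.perm_singleton.1 h1

theorem range_filter_two (n s o : ℕ) (hso : s < o) (ho : o ≤ n) :
    (List.range (n + 1)).filter (fun i => decide (i = s ∨ i = o)) = [s, o] := by
  have h1 : ((List.range (n + 1)).filter (fun i => decide (i = s ∨ i = o))).Perm [s, o] := by
    refine (List.perm_ext_iff_of_nodup (List.Nodup.filter _ List.nodup_range) (by simp; omega)).2 ?_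
    intro a
    simp only [List.mem_filter, List.mem_range, decide_eq_true_eq, List.mem_cons, List.not_mem_nil,
      or_false]
    omega
  refine h1.eq_of_pairwise (le := (· ≤ ·)) (fun a b _ _ hab hba => le_antisymm hab hba) ?_ ?_
  · exact (List.pairwise_le_range (n := n + 1)).filter _
  · simp; omega

section stage

variable {B : Type} [CStarAlgebra B]

/-- unitaries have norm at most one -/
theorem norm_unitary_le (u : unitary B) : ‖(u : B)‖ ≤ 1 := by
  rcases subsingleton_or_nontrivial B with h | h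
  · have : (u : B) = 0 := Subsingleton.elim _ _
    rw [this, norm_zero]
    exact zero_le_one
  · exact (CStarRing.norm_coe_unitary u).le

variable {P : Mean (unitary B × unitary B)} {Ec : Mean (unitary B)}

theorem Mv_rot (o s : ℕ) : Mv P Ec (Var.rot o s) = P := rfl

theorem Mv_core (s : ℕ) (f : unitary B × unitary B → ℂ) :
    (Mv P Ec (Var.core s)).E f = Ec.E (fun g => f (g, 1)) := rfl

/-- a function of one rotation and the core -/
theorem stage_one {n s o : ℕ} (ho : o ≤ n) (F : unitary B × unitary B → unitary B → ℂ) (ω : Smp B) :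
    itE (Mv P Ec) (stageVars n s) (fun ω => F (ω (.rot o s)) (ω (.core s)).1) ω =
      P.E (fun p => Ec.E (fun g => F p g)) := by
  classical
  unfold stageVars
  rw [itE_append]
  have h1 : itE (Mv P Ec) [Var.core s] (fun ω : Smp B => F (ω (.rot o s)) (ω (.core s)).1) =
      fun ω => Ec.E (fun g => F (ω (.rot o s)) g) := by
    funext ω
    rw [itE_single, Mv_core]
    congr 1
    funext g
    rw [Function.update_self, Function.update_of_ne (by simp)]
  rw [h1, itE_filter (Mv P Ec) (fun v => decide (v = Var.rot o s))]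
  · rw [List.filter_map]
    have h2 : ((fun v => decide (v = Var.rot o s)) ∘ fun o => Var.rot o s) =
        fun i => decide (i = o) := by
      funext i
      simp
    rw [h2, range_filter_one n o ho, List.map_singleton, itE_single, Mv_rot]
    congr 1
    funext p
    rw [Function.update_self]
  · intro v hv hp ω t
    have hne : v ≠ Var.rot o s := by simpa using hp
    show Ec.E (fun g => F (Function.update ω v t (.rot o s)) g) = _
    rw [Function.update_of_ne (Ne.symm hne)]

/-- a function of two rotations and the core -/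
theorem stage_two {n s o : ℕ} (hso : s < o) (ho : o ≤ n)
    (F : unitary B × unitary B → unitary B × unitary B → unitary B → ℂ) (ω : Smp B) :
    itE (Mv P Ec) (stageVars n s) (fun ω => F (ω (.rot s s)) (ω (.rot o s)) (ω (.core s)).1) ω =
      P.E (fun p => P.E (fun p' => Ec.E (fun g => F p p' g))) := by
  classical
  unfold stageVars
  rw [itE_append]
  have h1 : itE (Mv P Ec) [Var.core s]
      (fun ω : Smp B => F (ω (.rot s s)) (ω (.rot o s)) (ω (.core s)).1) =
      fun ω => Ec.E (fun g => F (ω (.rot s s)) (ω (.rot o s)) g) := by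
    funext ω
    rw [itE_single, Mv_core]
    congr 1
    funext g
    rw [Function.update_self, Function.update_of_ne (by simp), Function.update_of_ne (by simp)]
  rw [h1, itE_filter (Mv P Ec) (fun v => decide (v = Var.rot s s ∨ v = Var.rot o s))]
  · rw [List.filter_map]
    have h2 : ((fun v => decide (v = Var.rot s s ∨ v = Var.rot o s)) ∘ fun o => Var.rot o s) =
        fun i => decide (i = s ∨ i = o) := by
      funext i
      simp
    rw [h2, range_filter_two n s o hso ho]
    show P.E (fun p => P.E (fun p' => _)) = _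
    congr 1
    funext p
    congr 1
    funext p'
    show Ec.E (fun g => F (Function.update (Function.update ω (.rot s s) p) (.rot o s) p' (.rot s s))
      (Function.update (Function.update ω (.rot s s) p) (.rot o s) p' (.rot o s)) g) = _
    rw [Function.update_self, Function.update_of_ne (by simp; omega), Function.update_self]
  · intro v hv hp ω t
    have hne : ¬ (v = Var.rot s s ∨ v = Var.rot o s) := by simpa using hp
    rw [not_or] at hne
    show Ec.E (fun g => F (Function.update ω v t (.rot s s)) (Function.update ω v t (.rot o s)) g) = _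
    rw [Function.update_of_ne (Ne.symm hne.1), Function.update_of_ne (Ne.symm hne.2)]

variable {K : Type} [NormedAddCommGroup K] [InnerProductSpace ℂ K] {τ : B →ₗ[ℂ] ℂ}
  {w : B →ₗ[ℂ] (K →L[ℂ] K)} {q : Form K}

/-- (e), with constants -/
theorem stage_form_const (hτ : ∀ a b, τ (a * b) = τ (b * a)) (hw : IsHom w) {γ : ℝ} (hγ : 0 ≤ γ)
    (hγw : ∀ b, ‖w b‖ ≤ γ * ‖b‖) (hP : RotPair τ w q P Ec) (z z' : B) (ζ ζ' : K) :
    P.E (fun p => P.E (fun p' => Ec.E (fun g =>
      q (w ((p'.1 : B) * z * star (p.2 : B) * (g : B) * (p.1 : B)) ζ)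
        (w ((p'.1 : B) * z' * star (p.2 : B) * (g : B) * (p.1 : B)) ζ')))) =
      τ (star z * z') * q ζ ζ' := by
  obtain ⟨C, hC⟩ := hP.st (γ * max ‖ζ‖ ‖ζ'‖)
  have hnorm : ∀ (h : unitary B) (ξ : K), ‖ξ‖ ≤ max ‖ζ‖ ‖ζ'‖ → ‖w (h : B) ξ‖ ≤ γ * max ‖ζ‖ ‖ζ'‖ := by
    intro h ξ hξ
    have h1 : ‖w (h : B)‖ ≤ γ := (hγw _).trans (by
      have := mul_le_mul_of_nonneg_left (norm_unitary_le h) hγ
      rwa [mul_one] at this)
    exact ((w (h : B)).le_opNorm ξ).trans (mul_le_mul h1 hξ (norm_nonneg _) hγ)
  have hch : ∀ h : unitary B, ∃ ρ ρ' : B →L[ℂ] ℂ,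
      ‖ρ‖ ≤ C ∧ ‖ρ'‖ ≤ C ∧ ρ 1 + ρ' 1 = q (w (h : B) ζ) (w (h : B) ζ') ∧
      ∀ y y' : B, Ec.E (fun g => q (w (y * (g : B)) (w (h : B) ζ)) (w (y' * (g : B)) (w (h : B) ζ'))) =
        ρ (star y * y') + ρ' (y' * star y) := fun h =>
    hC _ _ (hnorm h ζ (le_max_left _ _)) (hnorm h ζ' (le_max_right _ _))
  choose ρ ρ' h1 h2 h3 h4 using hch
  have hcore : ∀ p p' : unitary B × unitary B, Ec.E (fun g =>
      q (w ((p'.1 : B) * z * star (p.2 : B) * (g : B) * (p.1 : B)) ζ)
        (w ((p'.1 : B) * z' * star (p.2 : B) * (g : B) * (p.1 : B)) ζ')) =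
      ρ p.1 ((p.2 : B) * (star z * z') * star (p.2 : B)) +
        ρ' p.1 ((p'.1 : B) * (z' * star z) * star (p'.1 : B)) := by
    intro p p'
    have e1 : ∀ (y : B) (g : unitary B) (ξ : K), w (y * (g : B) * (p.1 : B)) ξ =
        w (y * (g : B)) (w (p.1 : B) ξ) := fun y g ξ => by
      rw [hw.mul]
      rfl
    simp only [e1]
    rw [h4 p.1]
    have u1 : star (p'.1 : B) * (p'.1 : B) = 1 := Unitary.coe_star_mul_self _
    have u2 : star (p.2 : B) * (p.2 : B) = 1 := Unitary.coe_star_mul_self _
    congr 2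
    · rw [star_mul, star_mul, star_star]
      calc (p.2 : B) * (star z * star (p'.1 : B)) * ((p'.1 : B) * z' * star (p.2 : B))
          = (p.2 : B) * star z * (star (p'.1 : B) * (p'.1 : B)) * z' * star (p.2 : B) := by
            simp only [mul_assoc]
        _ = _ := by rw [u1]; simp only [mul_assoc, one_mul]
    · rw [star_mul, star_mul, star_star]
      calc (p'.1 : B) * z' * star (p.2 : B) * ((p.2 : B) * (star z * star (p'.1 : B)))
          = (p'.1 : B) * z' * (star (p.2 : B) * (p.2 : B)) * star z * star (p'.1 : B) := by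
            simp only [mul_assoc]
        _ = _ := by rw [u2]; simp only [mul_assoc, mul_one, one_mul]
  simp only [hcore]
  have hin : ∀ p : unitary B × unitary B, P.E (fun p' =>
      ρ p.1 ((p.2 : B) * (star z * z') * star (p.2 : B)) +
        ρ' p.1 ((p'.1 : B) * (z' * star z) * star (p'.1 : B))) =
      ρ p.1 ((p.2 : B) * (star z * z') * star (p.2 : B)) + τ (star z * z') * ρ' p.1 1 := by
    intro p
    rw [P.add', P.const, hP.dix1, hτ z' (star z)]
  simp only [hin]
  rw [P.add', hP.dix2 ρ C h1, P.const_mul, ← mul_add, ← P.add']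
  simp only [h3]
  rw [hP.col]

/-- (e) the stage rule -/
theorem stage_form (hτ : ∀ a b, τ (a * b) = τ (b * a)) (hw : IsHom w) {γ : ℝ} (hγ : 0 ≤ γ)
    (hγw : ∀ b, ‖w b‖ ≤ γ * ‖b‖) (hP : RotPair τ w q P Ec) {n s o : ℕ} (hso : s < o) (ho : o ≤ n)
    (z z' : Smp B → B) (ζ ζ' : Smp B → K)
    (hz : ∀ v ∈ stageVars n s, Ind z v) (hz' : ∀ v ∈ stageVars n s, Ind z' v)
    (hζ : ∀ v ∈ stageVars n s, Ind ζ v) (hζ' : ∀ v ∈ stageVars n s, Ind ζ' v) (ω : Smp B) :
    itE (Mv P Ec) (stageVars n s) (fun ω =>
      q (w (((ω (.rot o s)).1 : B) * z ω * star ((ω (.rot s s)).2 : B) * ((ω (.core s)).1 : B) *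
          ((ω (.rot s s)).1 : B)) (ζ ω))
        (w (((ω (.rot o s)).1 : B) * z' ω * star ((ω (.rot s s)).2 : B) * ((ω (.core s)).1 : B) *
          ((ω (.rot s s)).1 : B)) (ζ' ω))) ω =
      τ (star (z ω) * z' ω) * q (ζ ω) (ζ' ω) := by
  rw [itE_congr_on (Mv P Ec) (stageVars n s) _ (fun ω' =>
      q (w (((ω' (.rot o s)).1 : B) * z ω * star ((ω' (.rot s s)).2 : B) * ((ω' (.core s)).1 : B) *
          ((ω' (.rot s s)).1 : B)) (ζ ω))
        (w (((ω' (.rot o s)).1 : B) * z' ω * star ((ω' (.rot s s)).2 : B) * ((ω' (.core s)).1 : B) *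
          ((ω' (.rot s s)).1 : B)) (ζ' ω))) ω]
  · exact (stage_two hso ho (fun (p p' : unitary B × unitary B) (g : unitary B) =>
      q (w ((p'.1 : B) * z ω * star (p.2 : B) * (g : B) * (p.1 : B)) (ζ ω))
        (w ((p'.1 : B) * z' ω * star (p.2 : B) * (g : B) * (p.1 : B)) (ζ' ω))) ω).trans
      (stage_form_const hτ hw hγ hγw hP _ _ _ _)
  · intro ω' hω'
    rw [ind_agree _ hz hω', ind_agree _ hz' hω', ind_agree _ hζ hω', ind_agree _ hζ' hω']

/-- (g) the rule for a stage whose letter does not occur -/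
theorem stage_none (hP : RotPair τ w q P Ec) {n s o : ℕ} (ho : o ≤ n)
    (ξ η : Smp B → K) (hξ : ∀ v ∈ stageVars n s, Ind ξ v) (hη : ∀ v ∈ stageVars n s, Ind η v)
    (ω : Smp B) :
    itE (Mv P Ec) (stageVars n s) (fun ω =>
      q (w ((ω (.rot o s)).1 : B) (ξ ω)) (w ((ω (.rot o s)).1 : B) (η ω))) ω = q (ξ ω) (η ω) := by
  rw [itE_congr_on (Mv P Ec) (stageVars n s) _ (fun ω' =>
      q (w ((ω' (.rot o s)).1 : B) (ξ ω)) (w ((ω' (.rot o s)).1 : B) (η ω))) ω]
  · refine (stage_one ho (fun (p : unitary B × unitary B) (_ : unitary B) =>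
      q (w (p.1 : B) (ξ ω)) (w (p.1 : B) (η ω))) ω).trans ?_
    simp only [Ec.const]
    exact hP.col _ _
  · intro ω' hω'
    rw [ind_agree _ hξ hω', ind_agree _ hη hω']

/-- the functional `z ↦ E_g φ (a g⁻¹ z g b)` -/
def coreF (Ec : Mean (unitary B)) (φ : B →L[ℂ] ℂ) (a b : B) : B →L[ℂ] ℂ :=
  LinearMap.mkContinuous
    { toFun := fun z => Ec.E (fun g => φ (a * star (g : B) * z * (g : B) * b))
      map_add' := fun x y => by
        rw [← Ec.add']
        congr 1
        funext g
        rw [← map_add]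
        congr 1
        simp only [mul_add, add_mul]
      map_smul' := fun c x => by
        rw [RingHom.id_apply, smul_eq_mul, ← Ec.const_mul]
        congr 1
        funext g
        have h : a * star (g : B) * (c • x) * (g : B) * b = c • (a * star (g : B) * x * (g : B) * b) := by
          simp only [mul_smul_comm, smul_mul_assoc]
        rw [h, map_smul, smul_eq_mul] }
    (‖φ‖ * (‖a‖ * ‖b‖)) (fun z => by
      refine Ec.bd _ _ fun g => ?_
      refine (φ.le_opNorm _).trans ?_
      rw [mul_assoc ‖φ‖]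
      refine mul_le_mul_of_nonneg_left ?_ (norm_nonneg _)
      have h1 := norm_unitary_le g
      have h2 : ‖star (g : B)‖ ≤ 1 := by rw [norm_star]; exact h1
      calc ‖a * star (g : B) * z * (g : B) * b‖
          ≤ ‖a‖ * ‖star (g : B)‖ * ‖z‖ * ‖(g : B)‖ * ‖b‖ := by
            refine (norm_mul_le _ _).trans (mul_le_mul_of_nonneg_right ?_ (norm_nonneg _))
            refine (norm_mul_le _ _).trans (mul_le_mul_of_nonneg_right ?_ (norm_nonneg _))
            refine (norm_mul_le _ _).trans (mul_le_mul_of_nonneg_right ?_ (norm_nonneg _))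
            exact norm_mul_le _ _
        _ ≤ ‖a‖ * 1 * ‖z‖ * 1 * ‖b‖ := by
            gcongr
        _ = ‖a‖ * ‖b‖ * ‖z‖ := by ring)

theorem coreF_apply (Ec : Mean (unitary B)) (φ : B →L[ℂ] ℂ) (a b z : B) :
    coreF Ec φ a b z = Ec.E (fun g => φ (a * star (g : B) * z * (g : B) * b)) := rfl

theorem coreF_norm (Ec : Mean (unitary B)) (φ : B →L[ℂ] ℂ) (a b : B) :
    ‖coreF Ec φ a b‖ ≤ ‖φ‖ * (‖a‖ * ‖b‖) :=
  LinearMap.mkContinuous_norm_le _ (by positivity) _

/-- (f), with constants -/
theorem stage_alg_const (hP : RotPair τ w q P Ec) (φ : B →L[ℂ] ℂ) (u u' y : B) :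
    P.E (fun p => Ec.E (fun g => φ (star u * star (p.1 : B) * star (g : B) *
      ((p.2 : B) * y * star (p.2 : B)) * (g : B) * (p.1 : B) * u'))) = τ y * φ (star u * u') := by
  have h1 : ∀ h : unitary B, ‖coreF Ec φ (star u * star (h : B)) ((h : B) * u')‖ ≤
      ‖φ‖ * (‖u‖ * ‖u'‖) := by
    intro h
    refine (coreF_norm _ _ _ _).trans (mul_le_mul_of_nonneg_left ?_ (norm_nonneg _))
    have h2 := norm_unitary_le h
    refine mul_le_mul ?_ ?_ (norm_nonneg _) (norm_nonneg _)
    · refine (norm_mul_le _ _).trans ?_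
      rw [norm_star, norm_star]
      exact mul_le_of_le_one_right (norm_nonneg _) h2
    · refine (norm_mul_le _ _).trans ?_
      exact mul_le_of_le_one_left (norm_nonneg _) h2
  have h2 := hP.dix2 (fun h => coreF Ec φ (star u * star (h : B)) ((h : B) * u')) _ h1 y
  have h3 : ∀ p : unitary B × unitary B, Ec.E (fun g => φ (star u * star (p.1 : B) * star (g : B) *
      ((p.2 : B) * y * star (p.2 : B)) * (g : B) * (p.1 : B) * u')) =
      coreF Ec φ (star u * star (p.1 : B)) ((p.1 : B) * u') ((p.2 : B) * y * star (p.2 : B)) := by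
    intro p
    rw [coreF_apply]
    congr 1
    funext g
    congr 1
    simp only [mul_assoc]
  simp only [h3]
  rw [h2]
  congr 1
  have h4 : ∀ p : unitary B × unitary B,
      coreF Ec φ (star u * star (p.1 : B)) ((p.1 : B) * u') 1 = φ (star u * u') := by
    intro p
    rw [coreF_apply]
    have h5 : (fun g : unitary B => φ (star u * star (p.1 : B) * star (g : B) * 1 * (g : B) *
        ((p.1 : B) * u'))) = fun _ => φ (star u * u') := by
      funext g
      congr 1
      have u1 : star (g : B) * (g : B) = 1 := Unitary.coe_star_mul_self _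
      have u2 : star (p.1 : B) * (p.1 : B) = 1 := Unitary.coe_star_mul_self _
      calc star u * star (p.1 : B) * star (g : B) * 1 * (g : B) * ((p.1 : B) * u')
          = star u * star (p.1 : B) * (star (g : B) * (g : B)) * ((p.1 : B) * u') := by
            simp only [mul_assoc, mul_one, one_mul]
        _ = star u * (star (p.1 : B) * (p.1 : B)) * u' := by
            rw [u1]; simp only [mul_assoc, mul_one, one_mul]
        _ = star u * u' := by rw [u2, mul_one]
    rw [h5, Ec.const]
  simp only [h4]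
  exact P.const _

/-- (f) the stage rule for the algebra version -/
theorem stage_alg (hP : RotPair τ w q P Ec) (φ : B →L[ℂ] ℂ) {n s : ℕ} (hs : s ≤ n)
    (u u' y : Smp B → B) (hu : ∀ v ∈ stageVars n s, Ind u v) (hu' : ∀ v ∈ stageVars n s, Ind u' v)
    (hy : ∀ v ∈ stageVars n s, Ind y v) (ω : Smp B) :
    itE (Mv P Ec) (stageVars n s) (fun ω => φ (star (u ω) * star ((ω (.rot s s)).1 : B) *
      star ((ω (.core s)).1 : B) * (((ω (.rot s s)).2 : B) * y ω * star ((ω (.rot s s)).2 : B)) *
      ((ω (.core s)).1 : B) * ((ω (.rot s s)).1 : B) * u' ω)) ω =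
      τ (y ω) * φ (star (u ω) * u' ω) := by
  rw [itE_congr_on (Mv P Ec) (stageVars n s) _ (fun ω' => φ (star (u ω) *
      star ((ω' (.rot s s)).1 : B) *
      star ((ω' (.core s)).1 : B) * (((ω' (.rot s s)).2 : B) * y ω * star ((ω' (.rot s s)).2 : B)) *
      ((ω' (.core s)).1 : B) * ((ω' (.rot s s)).1 : B) * u' ω)) ω]
  · exact (stage_one hs (fun (p : unitary B × unitary B) (g : unitary B) =>
      φ (star (u ω) * star (p.1 : B) * star (g : B) *
      ((p.2 : B) * y ω * star (p.2 : B)) * (g : B) * (p.1 : B) * u' ω)) ω).trans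
      (stage_alg_const hP φ _ _ _)
  · intro ω' hω'
    rw [ind_agree _ hu hω', ind_agree _ hu' hω', ind_agree _ hy hω']

end stage

end Pool.Agent.Y971.D3
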