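import Mathlib
import Pool.Agent.Y268.D3.Defs
import Pool.Agent.Y971.D3.It
import Pool.Agent.Y971.D3.St
import Pool.Agent.Y971.D3.Rv

/-!
# Words: dependence on the variables, and the zero case (project D3)
-/

set_option autoImplicit false
set_option linter.all false

open scoped ComplexOrder InnerProductSpace ComplexConjugate
open Finset

noncomputable section

namespace Pool.Agent.Y971.D3

open Y268.D3 H759R2.Kad H711R2.KG

section dep

variable {B : Type} [CStarAlgebra B]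

theorem preH_zero (ω : Smp B) (o : ℕ) : preH ω o 0 = 1 := rfl
theorem preH_succ (ω : Smp B) (o b : ℕ) : preH ω o (b + 1) = (ω (.rot o b)).1 * preH ω o b := rfl
theorem preK_succ (ω : Smp B) (o b : ℕ) : preK ω o (b + 1) = (ω (.rot o b)).2 * preK ω o b := rfl

theorem preH_update (ω : Smp B) (v : Var) (t : unitary B × unitary B) (o b : ℕ)
    (h : ∀ b' < b, v ≠ Var.rot o b') : preH (Function.update ω v t) o b = preH ω o b := by
  induction b with
  | zero => rfl
  | succ b ih =>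
    rw [preH_succ, preH_succ, ih fun b' hb' => h b' (by omega),
      Function.update_of_ne (Ne.symm (h b (by omega)))]

theorem preK_update (ω : Smp B) (v : Var) (t : unitary B × unitary B) (o b : ℕ)
    (h : ∀ b' < b, v ≠ Var.rot o b') : preK (Function.update ω v t) o b = preK ω o b := by
  induction b with
  | zero => rfl
  | succ b ih =>
    rw [preK_succ, preK_succ, ih fun b' hb' => h b' (by omega),
      Function.update_of_ne (Ne.symm (h b (by omega)))]

theorem Gl_update (ω : Smp B) (v : Var) (t : unitary B × unitary B) (c : ℕ)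
    (h : ∀ b ≤ c, v ≠ Var.rot c b) (h' : v ≠ Var.core c) :
    Gl (Function.update ω v t) c = Gl ω c := by
  unfold Gl
  rw [preH_update ω v t c (c + 1) fun b hb => h b (by omega),
    preK_update ω v t c (c + 1) fun b hb => h b (by omega), Function.update_of_ne (Ne.symm h')]

theorem Wd_congr {G G' : ℕ → unitary B} {l : List (ℕ × B)} (h : ∀ y ∈ l, G y.1 = G' y.1) :
    Wd G l = Wd G' l := by
  induction l with
  | nil => rfl
  | cons y l ih =>
    obtain ⟨c, x⟩ := y
    rw [Wd, Wd, ih fun y hy => h y (List.mem_cons_of_mem _ hy), h (c, x) List.mem_cons_self]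

theorem Wd_update (ω : Smp B) (v : Var) (t : unitary B × unitary B) (l : List (ℕ × B))
    (h : ∀ y ∈ l, (∀ b ≤ y.1, v ≠ Var.rot y.1 b) ∧ v ≠ Var.core y.1) :
    Wd (Gl (Function.update ω v t)) l = Wd (Gl ω) l :=
  Wd_congr fun y hy => Gl_update ω v t y.1 (h y hy).1 (h y hy).2

/-- a bound of the words -/
def Wb (l : List (ℕ × B)) : ℝ := (l.map fun y => ‖y.2‖).prod

theorem Wb_nonneg (l : List (ℕ × B)) : 0 ≤ Wb l := by
  unfold Wb
  refine List.prod_nonneg fun a ha => ?_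
  rw [List.mem_map] at ha
  obtain ⟨y, -, rfl⟩ := ha
  exact norm_nonneg _

theorem norm_one_le : ‖(1 : B)‖ ≤ 1 := by
  have := norm_unitary_le (1 : unitary B)
  simpa using this

theorem Wd_norm (G : ℕ → unitary B) (l : List (ℕ × B)) : ‖Wd G l‖ ≤ Wb l := by
  induction l with
  | nil => simpa [Wd, Wb] using norm_one_le (B := B)
  | cons y l ih =>
    obtain ⟨c, x⟩ := y
    have h1 : Wb ((c, x) :: l) = ‖x‖ * Wb l := by simp [Wb]
    rw [Wd, h1]
    refine (norm_mul_le _ _).trans (mul_le_mul ?_ ih (norm_nonneg _) (norm_nonneg _))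
    refine (norm_mul_le _ _).trans ?_
    exact mul_le_of_le_one_left (norm_nonneg _) (norm_unitary_le _)

/-- the letter `e` as a function of its own rotations -/
theorem Gl_self (ω : Smp B) (e : ℕ) (p : unitary B × unitary B) :
    ((Gl (Function.update ω (.rot e e) p) e : unitary B) : B) =
      star (preK ω e e : B) * star (p.2 : B) * ((ω (.core e)).1 : B) * (p.1 : B) * (preH ω e e : B) := by
  unfold Gl
  rw [preH_succ, preK_succ, preH_update ω _ p e e (by intro b hb; simp; omega),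
    preK_update ω _ p e e (by intro b hb; simp; omega), Function.update_self,
    Function.update_of_ne (by simp)]
  push_cast
  rw [star_mul]
  simp only [mul_assoc]

theorem Gl_self' (ω : Smp B) (e : ℕ) :
    ((Gl ω e : unitary B) : B) =
      star (preK ω e e : B) * star ((ω (.rot e e)).2 : B) * ((ω (.core e)).1 : B) *
        ((ω (.rot e e)).1 : B) * (preH ω e e : B) := by
  have h := Gl_self ω e (ω (.rot e e))
  rwa [Function.update_eq_self] at h

end dep

/-! ## Sesquilinear forms on `B` -/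

section sq

variable {B : Type} [CStarAlgebra B]

/-- bounded sesquilinear forms on `B` -/
structure Sq (Ψ : B → B → ℂ) (C : ℝ) : Prop where
  addr : ∀ y z z', Ψ y (z + z') = Ψ y z + Ψ y z'
  smulr : ∀ (c : ℂ) y z, Ψ y (c • z) = c * Ψ y z
  addl : ∀ y y' z, Ψ (y + y') z = Ψ y z + Ψ y' z
  smull : ∀ (c : ℂ) y z, Ψ (c • y) z = conj c * Ψ y z
  bd : ∀ y z, ‖Ψ y z‖ ≤ C * ‖y‖ * ‖z‖

/-- `b ↦ Ψ u (A b D)` -/
def Rf {Ψ : B → B → ℂ} {C : ℝ} (h : Sq Ψ C) (u A D : B) : B →L[ℂ] ℂ :=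
  LinearMap.mkContinuous
    { toFun := fun b => Ψ u (A * b * D)
      map_add' := fun x y => by rw [mul_add, add_mul, h.addr]
      map_smul' := fun c x => by
        rw [RingHom.id_apply, smul_eq_mul, ← h.smulr, mul_smul_comm, smul_mul_assoc] }
    (|C| * ‖u‖ * (‖A‖ * ‖D‖)) (fun b => by
      refine (h.bd _ _).trans ?_
      have h1 : ‖A * b * D‖ ≤ ‖A‖ * ‖b‖ * ‖D‖ :=
        (norm_mul_le _ _).trans (mul_le_mul_of_nonneg_right (norm_mul_le _ _) (norm_nonneg _))
      calc C * ‖u‖ * ‖A * b * D‖ ≤ |C| * ‖u‖ * (‖A‖ * ‖b‖ * ‖D‖) :=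
            mul_le_mul (mul_le_mul_of_nonneg_right (le_abs_self C) (norm_nonneg _)) h1
              (norm_nonneg _) (by positivity)
        _ = _ := by ring)

theorem Rf_apply {Ψ : B → B → ℂ} {C : ℝ} (h : Sq Ψ C) (u A D b : B) :
    Rf h u A D b = Ψ u (A * b * D) := rfl

theorem Rf_norm {Ψ : B → B → ℂ} {C : ℝ} (h : Sq Ψ C) (u A D : B) :
    ‖Rf h u A D‖ ≤ |C| * ‖u‖ * (‖A‖ * ‖D‖) :=
  LinearMap.mkContinuous_norm_le _ (by positivity) _

/-- `b ↦ Ψ (A b⁎ D) u` -/
def Lf {Ψ : B → B → ℂ} {C : ℝ} (h : Sq Ψ C) (u A D : B) : B →L[ℂ] ℂ :=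
  LinearMap.mkContinuous
    { toFun := fun b => Ψ (A * star b * D) u
      map_add' := fun x y => by rw [star_add, mul_add, add_mul, h.addl]
      map_smul' := fun c x => by
        rw [RingHom.id_apply, smul_eq_mul, star_smul, mul_smul_comm, smul_mul_assoc, h.smull]
        simp }
    (|C| * ‖u‖ * (‖A‖ * ‖D‖)) (fun b => by
      refine (h.bd _ _).trans ?_
      have h1 : ‖A * star b * D‖ ≤ ‖A‖ * ‖b‖ * ‖D‖ := by
        refine (norm_mul_le _ _).trans (mul_le_mul_of_nonneg_right ?_ (norm_nonneg _))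
        refine (norm_mul_le _ _).trans ?_
        rw [norm_star]
      calc C * ‖A * star b * D‖ * ‖u‖ ≤ |C| * (‖A‖ * ‖b‖ * ‖D‖) * ‖u‖ :=
            mul_le_mul_of_nonneg_right (mul_le_mul (le_abs_self C) h1 (norm_nonneg _) (abs_nonneg _))
              (norm_nonneg _)
        _ = _ := by ring)

theorem Lf_apply {Ψ : B → B → ℂ} {C : ℝ} (h : Sq Ψ C) (u A D b : B) :
    Lf h u A D b = Ψ (A * star b * D) u := rfl

theorem Lf_norm {Ψ : B → B → ℂ} {C : ℝ} (h : Sq Ψ C) (u A D : B) :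
    ‖Lf h u A D‖ ≤ |C| * ‖u‖ * (‖A‖ * ‖D‖) :=
  LinearMap.mkContinuous_norm_le _ (by positivity) _

end sq

/-! ## The zero case -/

section zero

variable {B : Type} [CStarAlgebra B] {P : Mean (unitary B × unitary B)} {Ec : Mean (unitary B)}
  {K : Type} [NormedAddCommGroup K] [InnerProductSpace ℂ K] {τ : B →ₗ[ℂ] ℂ}
  {w : B →ₗ[ℂ] (K →L[ℂ] K)} {q : Form K}

theorem zero_of_mem {V S : Type} [DecidableEq V] (M : V → Mean S) (F : (V → S) → ℂ) (v : V)
    (h : ∀ l : List V, v ∉ l → ∀ ω, (M v).E (fun p => itE M l F (Function.update ω v p)) = 0)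
    (l : List V) (hv : v ∈ l) (ω : V → S) : itE M l F ω = 0 := by
  induction l generalizing ω with
  | nil => exact absurd hv List.not_mem_nil
  | cons u l ih =>
    rw [itE_cons]
    by_cases hl : v ∈ l
    · simp only [ih hl]
      exact (M u).const 0
    · have hu : v = u := (List.mem_cons.1 hv).resolve_right hl
      subst hu
      exact h l hl ω

/-- the parameter of a variable outside the list -/
theorem itE_update {V S : Type} [DecidableEq V] (M : V → Mean S) (F : (V → S) → ℂ) (v : V)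
    (l : List V) (hv : v ∉ l) (ω : V → S) (p : S) :
    itE M l F (Function.update ω v p) = itE M l (fun ω' => F (Function.update ω' v p)) ω := by
  induction l generalizing ω with
  | nil => rfl
  | cons u l ih =>
    rw [List.mem_cons, not_or] at hv
    rw [itE_cons, itE_cons]
    congr 1
    funext t
    rw [Function.update_comm hv.1, ih hv.2]

theorem nm2 {a b : B} {x y : ℝ} (ha : ‖a‖ ≤ x) (hb : ‖b‖ ≤ y) : ‖a * b‖ ≤ x * y :=
  (norm_mul_le _ _).trans (mul_le_mul ha hb (norm_nonneg _) ((norm_nonneg _).trans ha))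

theorem nu (u : unitary B) : ‖(u : B)‖ ≤ 1 := norm_unitary_le u

theorem nus (u : unitary B) : ‖star (u : B)‖ ≤ 1 := by rw [norm_star]; exact norm_unitary_le u

/-- the zero case: the letter `e` occurs in the first word of the trace and in the second word of
the form -/
theorem zero1 (hτ : ∀ a b, τ (a * b) = τ (b * a)) (hP : RotPair τ w q P Ec) (e : ℕ)
    (Ψ : Smp B → B → B → ℂ) (C : ℝ) (hΨ : ∀ ω, Sq (Ψ ω) C)
    (hi : ∀ ω t, Ψ (Function.update ω (.rot e e) t) = Ψ ω)
    (al1 al2 al' be be1 be2 : List (ℕ × B)) (a a' x x' y y' : B)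
    (h1 : ∀ z ∈ al1, z.1 ≠ e) (h2 : ∀ z ∈ al2, z.1 ≠ e) (h3 : ∀ z ∈ al', z.1 ≠ e)
    (h4 : ∀ z ∈ be, z.1 ≠ e) (h5 : ∀ z ∈ be1, z.1 ≠ e) (h6 : ∀ z ∈ be2, z.1 ≠ e)
    (l : List Var) (hl : Var.rot e e ∈ l) (ω : Smp B) :
    itE (Mv P Ec) l (fun ω =>
      τ (star (a * Wd (Gl ω) (al1 ++ (e, y) :: al2)) * (a' * Wd (Gl ω) al')) *
        Ψ ω (x * Wd (Gl ω) be) (x' * Wd (Gl ω) (be1 ++ (e, y') :: be2))) ω = 0 := by
  refine zero_of_mem (Mv P Ec) _ (Var.rot e e) ?_ l hl ω
  clear hl ω l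
  intro l hl ω
  rw [Mv_rot]
  simp only [itE_update (Mv P Ec) _ (Var.rot e e) l hl ω]
  -- the words do not depend on the variable
  have hW : ∀ (ω' : Smp B) (p : unitary B × unitary B) (L : List (ℕ × B)), (∀ z ∈ L, z.1 ≠ e) →
      Wd (Gl (Function.update ω' (.rot e e) p)) L = Wd (Gl ω') L := by
    intro ω' p L hL
    refine Wd_update ω' _ p L fun z hz => ⟨fun b _ => ?_, by simp⟩
    have := hL z hz
    simp
    omega
  let Y : unitary B → Smp B → B := fun h ω' =>
    ((preK ω' e e : B) * (star (a * Wd (Gl ω') al1) * (a' * Wd (Gl ω') al'))) *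
      (star (y * Wd (Gl ω') al2) * star (preH ω' e e : B) * star (h : B) *
        star ((ω' (.core e)).1 : B))
  let Φ : unitary B → Smp B → (B →L[ℂ] ℂ) := fun h ω' =>
    Rf (hΨ ω') (x * Wd (Gl ω') be) (x' * Wd (Gl ω') be1 * star (preK ω' e e : B))
      (((ω' (.core e)).1 : B) * (h : B) * (preH ω' e e : B) * (y' * Wd (Gl ω') be2))
  have hF : ∀ (p : unitary B × unitary B) (ω' : Smp B),
      τ (star (a * Wd (Gl (Function.update ω' (.rot e e) p)) (al1 ++ (e, y) :: al2)) *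
        (a' * Wd (Gl (Function.update ω' (.rot e e) p)) al')) *
        Ψ (Function.update ω' (.rot e e) p) (x * Wd (Gl (Function.update ω' (.rot e e) p)) be)
          (x' * Wd (Gl (Function.update ω' (.rot e e) p)) (be1 ++ (e, y') :: be2)) =
      τ (Y p.1 ω' * (p.2 : B)) * Φ p.1 ω' (star (p.2 : B)) := by
    intro p ω'
    rw [hi, Wd_append, Wd_append, Wd, Wd, hW ω' p al1 h1, hW ω' p al2 h2, hW ω' p al' h3,
      hW ω' p be h4, hW ω' p be1 h5, hW ω' p be2 h6, Gl_self]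
    congr 1
    · rw [hτ (Y p.1 ω') (p.2 : B)]
      have e1 : star (a * (Wd (Gl ω') al1 * (star (preK ω' e e : B) * star (p.2 : B) *
          ((ω' (.core e)).1 : B) * (p.1 : B) * (preH ω' e e : B) * y * Wd (Gl ω') al2))) *
          (a' * Wd (Gl ω') al') =
          (star (y * Wd (Gl ω') al2) * star (preH ω' e e : B) * star (p.1 : B) *
            star ((ω' (.core e)).1 : B)) * ((p.2 : B) * ((preK ω' e e : B) *
            (star (a * Wd (Gl ω') al1) * (a' * Wd (Gl ω') al')))) := by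
        simp only [star_mul, star_star, mul_assoc]
      rw [e1, hτ]
      congr 1
      simp only [Y, mul_assoc]
    · rw [Rf_apply]
      congr 1
      simp only [mul_assoc]
  simp only [hF]
  have hY : ∀ h ω', ‖Y h ω'‖ ≤ (1 * ((‖a‖ * Wb al1) * (‖a'‖ * Wb al'))) *
      ((‖y‖ * Wb al2) * 1 * 1 * 1) := by
    intro h ω'
    refine nm2 (nm2 (nu _) (nm2 ?_ (nm2 le_rfl (Wd_norm _ _))))
      (nm2 (nm2 (nm2 ?_ (nus _)) (nus _)) (nus _))
    · rw [norm_star]; exact nm2 le_rfl (Wd_norm _ _)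
    · rw [norm_star]; exact nm2 le_rfl (Wd_norm _ _)
  have hΦ : ∀ h ω', ‖Φ h ω'‖ ≤ |C| * (‖x‖ * Wb be) * ((‖x'‖ * Wb be1 * 1) *
      (1 * 1 * 1 * (‖y'‖ * Wb be2))) := by
    intro h ω'
    refine (Rf_norm _ _ _ _).trans ?_
    refine mul_le_mul (mul_le_mul_of_nonneg_left (nm2 le_rfl (Wd_norm _ _)) (abs_nonneg _))
      (mul_le_mul (nm2 (nm2 le_rfl (Wd_norm _ _)) (nus _))
        (nm2 (nm2 (nm2 (nu _) (nu _)) (nu _)) (nm2 le_rfl (Wd_norm _ _))) (norm_nonneg _) ?_)
      (by positivity) ?_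
    · have := Wb_nonneg be1; positivity
    · have := Wb_nonneg be; positivity
  exact hP.orthr (Smp B) (itMean (Mv P Ec) l ω) Y Φ (max _ _)
    (fun h ω' => (hY h ω').trans (le_max_left _ _)) (fun h ω' => (hΦ h ω').trans (le_max_right _ _))

/-- the zero case: the letter `e` occurs in the second word of the trace and in the first word of
the form -/
theorem zero2 (hτ : ∀ a b, τ (a * b) = τ (b * a)) (hP : RotPair τ w q P Ec) (e : ℕ)
    (Ψ : Smp B → B → B → ℂ) (C : ℝ) (hΨ : ∀ ω, Sq (Ψ ω) C)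
    (hi : ∀ ω t, Ψ (Function.update ω (.rot e e) t) = Ψ ω)
    (al al1 al2 be1 be2 be' : List (ℕ × B)) (a a' x x' y y' : B)
    (h1 : ∀ z ∈ al1, z.1 ≠ e) (h2 : ∀ z ∈ al2, z.1 ≠ e) (h3 : ∀ z ∈ al, z.1 ≠ e)
    (h4 : ∀ z ∈ be', z.1 ≠ e) (h5 : ∀ z ∈ be1, z.1 ≠ e) (h6 : ∀ z ∈ be2, z.1 ≠ e)
    (l : List Var) (hl : Var.rot e e ∈ l) (ω : Smp B) :
    itE (Mv P Ec) l (fun ω =>
      τ (star (a * Wd (Gl ω) al) * (a' * Wd (Gl ω) (al1 ++ (e, y) :: al2))) *
        Ψ ω (x * Wd (Gl ω) (be1 ++ (e, y') :: be2)) (x' * Wd (Gl ω) be')) ω = 0 := by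
  refine zero_of_mem (Mv P Ec) _ (Var.rot e e) ?_ l hl ω
  clear hl ω l
  intro l hl ω
  rw [Mv_rot]
  simp only [itE_update (Mv P Ec) _ (Var.rot e e) l hl ω]
  have hW : ∀ (ω' : Smp B) (p : unitary B × unitary B) (L : List (ℕ × B)), (∀ z ∈ L, z.1 ≠ e) →
      Wd (Gl (Function.update ω' (.rot e e) p)) L = Wd (Gl ω') L := by
    intro ω' p L hL
    refine Wd_update ω' _ p L fun z hz => ⟨fun b _ => ?_, by simp⟩
    have := hL z hz
    simp
    omega
  let Y : unitary B → Smp B → B := fun h ω' =>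
    (((ω' (.core e)).1 : B) * (h : B) * (preH ω' e e : B) * (y * Wd (Gl ω') al2)) *
      (star (a * Wd (Gl ω') al) * (a' * Wd (Gl ω') al1) * star (preK ω' e e : B))
  let Φ : unitary B → Smp B → (B →L[ℂ] ℂ) := fun h ω' =>
    Lf (hΨ ω') (x' * Wd (Gl ω') be') (x * Wd (Gl ω') be1 * star (preK ω' e e : B))
      (((ω' (.core e)).1 : B) * (h : B) * (preH ω' e e : B) * (y' * Wd (Gl ω') be2))
  have hF : ∀ (p : unitary B × unitary B) (ω' : Smp B),
      τ (star (a * Wd (Gl (Function.update ω' (.rot e e) p)) al) *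
        (a' * Wd (Gl (Function.update ω' (.rot e e) p)) (al1 ++ (e, y) :: al2))) *
        Ψ (Function.update ω' (.rot e e) p)
          (x * Wd (Gl (Function.update ω' (.rot e e) p)) (be1 ++ (e, y') :: be2))
          (x' * Wd (Gl (Function.update ω' (.rot e e) p)) be') =
      τ (Y p.1 ω' * star (p.2 : B)) * Φ p.1 ω' (p.2 : B) := by
    intro p ω'
    rw [hi, Wd_append, Wd_append, Wd, Wd, hW ω' p al1 h1, hW ω' p al2 h2, hW ω' p al h3,
      hW ω' p be' h4, hW ω' p be1 h5, hW ω' p be2 h6, Gl_self]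
    congr 1
    · rw [hτ (Y p.1 ω') (star (p.2 : B))]
      have e1 : star (a * Wd (Gl ω') al) * (a' * (Wd (Gl ω') al1 *
          (star (preK ω' e e : B) * star (p.2 : B) * ((ω' (.core e)).1 : B) * (p.1 : B) *
            (preH ω' e e : B) * y * Wd (Gl ω') al2))) =
          (star (a * Wd (Gl ω') al) * (a' * Wd (Gl ω') al1) * star (preK ω' e e : B)) *
            (star (p.2 : B) * (((ω' (.core e)).1 : B) * (p.1 : B) * (preH ω' e e : B) *
              (y * Wd (Gl ω') al2))) := by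
        simp only [mul_assoc]
      rw [e1, hτ]
      congr 1
      simp only [Y, mul_assoc]
    · rw [Lf_apply]
      congr 1
      simp only [mul_assoc]
  simp only [hF]
  have hY : ∀ h ω', ‖Y h ω'‖ ≤ (1 * 1 * 1 * (‖y‖ * Wb al2)) *
      ((‖a‖ * Wb al) * (‖a'‖ * Wb al1) * 1) := by
    intro h ω'
    refine nm2 (nm2 (nm2 (nm2 (nu _) (nu _)) (nu _)) (nm2 le_rfl (Wd_norm _ _)))
      (nm2 (nm2 ?_ (nm2 le_rfl (Wd_norm _ _))) (nus _))
    rw [norm_star]; exact nm2 le_rfl (Wd_norm _ _)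
  have hΦ : ∀ h ω', ‖Φ h ω'‖ ≤ |C| * (‖x'‖ * Wb be') * ((‖x‖ * Wb be1 * 1) *
      (1 * 1 * 1 * (‖y'‖ * Wb be2))) := by
    intro h ω'
    refine (Lf_norm _ _ _ _).trans ?_
    refine mul_le_mul (mul_le_mul_of_nonneg_left (nm2 le_rfl (Wd_norm _ _)) (abs_nonneg _))
      (mul_le_mul (nm2 (nm2 le_rfl (Wd_norm _ _)) (nus _))
        (nm2 (nm2 (nm2 (nu _) (nu _)) (nu _)) (nm2 le_rfl (Wd_norm _ _))) (norm_nonneg _) ?_)
      (by positivity) ?_
    · have := Wb_nonneg be1; positivity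
    · have := Wb_nonneg be'; positivity
  exact hP.orthl (Smp B) (itMean (Mv P Ec) l ω) Y Φ (max _ _)
    (fun h ω' => (hY h ω').trans (le_max_left _ _)) (fun h ω' => (hΦ h ω').trans (le_max_right _ _))

end zero

end Pool.Agent.Y971.D3
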